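import Mathlib
import Pool.Agent.R125.RsJ

/-!
# MP_7fcbce: `A_r(d) ≤ (d+7)/2` for Rudin-Shapiro and `d ≥ 23`, equality iff `d = 2^k - 1`, `k` odd
-/

namespace Pool.Agent.Results.MP_7fcbce_co.HalfBound

open R125S

/-- the Rudin-Shapiro sequence in `0/1` form -/
def r (n : ℕ) : ℕ := e11 n % 2

/-- `A_r(n,d)`: number of terms of the longest monochromatic progression of difference `d`
starting at `n` -/
noncomputable def An (n d : ℕ) : ℕ∞ :=
  ⨆ l ∈ {l : ℕ | 1 ≤ l ∧ ∀ i < l, r (n + i * d) = r n}, (l : ℕ∞)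

/-- `A_r(d)` -/
noncomputable def A (d : ℕ) : ℕ∞ := ⨆ n, An n d

theorem mono_iff (n d l : ℕ) : (∀ i < l, r (n + i * d) = r n) ↔ (∀ i < l, Rs (n + i * d) = Rs n) := by
  constructor
  · intro h i hi; exact (Rs_iff _ _).mp (h i hi)
  · intro h i hi; exact (Rs_iff _ _).mpr (h i hi)

theorem A_le (d B : ℕ) (h : ∀ n L, (∀ l < L, Rs (n + l * d) = Rs n) → L ≤ B) :
    A d ≤ (B : ℕ∞) := by
  unfold A An
  apply iSup_le
  intro n
  apply iSup₂_le
  intro l hl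
  exact_mod_cast h n l ((mono_iff n d l).mp hl.2)

theorem le_A (d B n : ℕ) (hB : 1 ≤ B) (h : ∀ l < B, Rs (n + l * d) = Rs n) :
    (B : ℕ∞) ≤ A d := by
  unfold A
  refine le_trans ?_ (le_iSup _ n)
  unfold An
  refine le_iSup₂_of_le B ?_ le_rfl
  refine ⟨hB, ?_⟩
  rw [mono_iff]
  exact h

/-- `A_r(d)` is finite -/
theorem A_fin (d : ℕ) (hd : 23 ≤ d) : ∃ a : ℕ, A d = (a : ℕ∞) ∧ 2 * a ≤ d + 7 := by
  have h : A d ≤ (((d + 7) / 2 : ℕ) : ℕ∞) := by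
    apply A_le
    intro n L hL
    have := (all7 d (by omega) n L hL).2 hd
    rcases this with h | h
    · omega
    · have := h.1
      omega
  obtain ⟨a, ha⟩ := ENat.ne_top_iff_exists.mp (ne_top_of_le_ne_top (ENat.natCast_ne_top _) h)
  refine ⟨a, ha.symm, ?_⟩
  rw [← ha] at h
  have : a ≤ (d + 7) / 2 := by exact_mod_cast h
  omega

theorem result : ∀ d : ℕ, 23 ≤ d →
    2 * A d ≤ (d : ℕ∞) + 7 ∧ (2 * A d = (d : ℕ∞) + 7 ↔ ∃ k, 5 ≤ k ∧ Odd k ∧ d = 2 ^ k - 1) := by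
  intro d hd
  obtain ⟨a, ha, ha7⟩ := A_fin d hd
  have hcast : ((d + 7 : ℕ) : ℕ∞) = (d : ℕ∞) + 7 := by push_cast; rfl
  have hcast2 : ((2 * a : ℕ) : ℕ∞) = 2 * A d := by rw [ha]; push_cast; rfl
  rw [← hcast, ← hcast2]
  refine ⟨by exact_mod_cast ha7, ?_, ?_⟩
  · intro hA
    have hA2 : 2 * a = d + 7 := by exact_mod_cast hA
    by_contra hne
    have h1 : A d ≤ (((d + 6) / 2 : ℕ) : ℕ∞) := by
      apply A_le
      intro n L hL
      rcases (all7 d (by omega) n L hL).2 hd with h | h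
      · omega
      · exact absurd h.2 hne
    rw [ha] at h1
    have : a ≤ (d + 6) / 2 := by exact_mod_cast h1
    omega
  · rintro ⟨k, hk, hko, rfl⟩
    obtain ⟨n, hn⟩ := (ones_exists k hk).1 (Nat.odd_iff.mp hko)
    have h1 := le_A _ _ n (Nat.succ_le_succ (Nat.zero_le _)) hn
    rw [ha] at h1
    have h2 : 2 ^ (k - 1) + 3 ≤ a := by exact_mod_cast h1
    have h3 : 2 ^ k = 2 * 2 ^ (k - 1) := by
      obtain ⟨t, rfl⟩ : ∃ t, k = t + 1 := ⟨k - 1, by omega⟩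
      rw [Nat.add_sub_cancel, pow_succ]; ring
    have h4 : 0 < 2 ^ (k - 1) := by positivity
    have : 2 * a = 2 ^ k - 1 + 7 := by omega
    exact_mod_cast this

end Pool.Agent.Results.MP_7fcbce_co.HalfBound
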